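import Mathlib

/-!
Complex Gaussians `x ↦ exp (-a ‖x‖²)`, `Re a > 0`, on a Euclidean space as Schwartz functions.
-/

set_option autoImplicit false

namespace Pool.Agent.TH274.Wig

open MeasureTheory Complex Set

/-- The Euclidean space `ℝ^d`. -/
abbrev E (d : ℕ) := EuclideanSpace ℝ (Fin d)

lemma iteratedDeriv_exp_line (a : ℂ) (n : ℕ) :
    iteratedDeriv n (fun t : ℝ => cexp (-a * t)) = fun t : ℝ => (-a) ^ n * cexp (-a * t) := by
  induction n with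
  | zero => ext t; simp
  | succ n ih =>
    rw [iteratedDeriv_succ, ih]
    ext t
    have h1 : HasDerivAt (fun t : ℝ => cexp (-a * t)) (cexp (-a * t) * (-a)) t := by
      have h2 : HasDerivAt (fun z : ℂ => cexp (-a * z)) (cexp (-a * (t : ℂ)) * (-a)) (t : ℂ) := by
        have := ((hasDerivAt_id (t : ℂ)).const_mul (-a)).cexp
        simpa using this
      exact h2.comp_ofReal
    have h3 := h1.const_mul ((-a) ^ n)
    rw [h3.deriv]
    ring

lemma contDiff_exp_line (a : ℂ) : ContDiff ℝ (⊤ : ℕ∞) (fun t : ℝ => cexp (-a * t)) := by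
  have : ContDiff ℝ (⊤ : ℕ∞) (fun t : ℝ => -a * (t : ℂ)) :=
    contDiff_const.mul Complex.ofRealCLM.contDiff
  exact this.cexp

lemma norm_iteratedFDeriv_exp_line (a : ℂ) (n : ℕ) (t : ℝ) :
    ‖iteratedFDeriv ℝ n (fun t : ℝ => cexp (-a * t)) t‖ = ‖a‖ ^ n * Real.exp (-a.re * t) := by
  rw [norm_iteratedFDeriv_eq_norm_iteratedDeriv, iteratedDeriv_exp_line]
  simp only [norm_mul, norm_pow, norm_neg, Complex.norm_exp]
  congr 2
  simp

/-- `x ↦ exp (-a ‖x‖²)`. -/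
noncomputable def gfun (d : ℕ) (a : ℂ) (x : E d) : ℂ := cexp (-a * ((‖x‖ ^ 2 : ℝ) : ℂ))

lemma gfun_decay (d : ℕ) {a : ℂ} (ha : 0 < a.re) (k n : ℕ) :
    ∃ C : ℝ, ∀ x : E d, ‖x‖ ^ k * ‖iteratedFDeriv ℝ n (gfun d a) x‖ ≤ C := by
  obtain ⟨k', C', hC', hb⟩ := (Function.hasTemperateGrowth_norm_sq
    (H := E d)).norm_iteratedFDeriv_le_uniform n
  set M : ℝ := max 1 ‖a‖ with hM
  have hM1 : 1 ≤ M := le_max_left _ _
  set m : ℕ := k + k' * n with hm
  refine ⟨n.factorial * M ^ n * (1 + C') ^ n * Real.exp ((m : ℝ) ^ 2 / (4 * a.re)), fun x => ?_⟩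
  have hx0 : 0 ≤ ‖x‖ := norm_nonneg x
  have hx1 : 1 ≤ 1 + ‖x‖ := by linarith
  set D : ℝ := (1 + C') * (1 + ‖x‖) ^ k' with hD
  have hD1 : 1 ≤ D := by
    have : 1 ≤ (1 + ‖x‖) ^ k' := one_le_pow₀ hx1
    nlinarith
  have key : ‖iteratedFDeriv ℝ n (gfun d a) x‖ ≤
      n.factorial * (M ^ n * Real.exp (-a.re * ‖x‖ ^ 2)) * D ^ n := by
    have hcomp : gfun d a = (fun t : ℝ => cexp (-a * t)) ∘ (fun x : E d => ‖x‖ ^ 2) := rfl
    rw [hcomp]
    refine norm_iteratedFDeriv_comp_le (N := (⊤ : ℕ∞)) (contDiff_exp_line a)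
      (contDiff_norm_sq ℝ) (by exact_mod_cast le_top) x ?_ ?_
    · intro i hi
      rw [norm_iteratedFDeriv_exp_line]
      gcongr
      calc ‖a‖ ^ i ≤ M ^ i := by gcongr; exact le_max_right _ _
        _ ≤ M ^ n := pow_le_pow_right₀ hM1 hi
    · intro i hi hin
      calc ‖iteratedFDeriv ℝ i (fun x : E d => ‖x‖ ^ 2) x‖ ≤ C' * (1 + ‖x‖) ^ k' := hb i hin x
        _ ≤ D := by
          rw [hD]
          gcongr
          linarith
        _ ≤ D ^ i := le_self_pow₀ hD1 (by omega)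
  have hexp : (1 + ‖x‖) ^ m * Real.exp (-a.re * ‖x‖ ^ 2) ≤ Real.exp ((m : ℝ) ^ 2 / (4 * a.re)) := by
    have h1 : (1 + ‖x‖) ^ m ≤ Real.exp (m * ‖x‖) := by
      rw [Real.exp_nat_mul]
      gcongr
      have := Real.add_one_le_exp ‖x‖
      linarith
    calc (1 + ‖x‖) ^ m * Real.exp (-a.re * ‖x‖ ^ 2)
        ≤ Real.exp (m * ‖x‖) * Real.exp (-a.re * ‖x‖ ^ 2) := by gcongr
      _ = Real.exp (m * ‖x‖ + -a.re * ‖x‖ ^ 2) := by rw [Real.exp_add]
      _ ≤ Real.exp ((m : ℝ) ^ 2 / (4 * a.re)) := by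
        apply Real.exp_le_exp.2
        rw [le_div_iff₀ (by positivity)]
        nlinarith [sq_nonneg (2 * a.re * ‖x‖ - m)]
  calc ‖x‖ ^ k * ‖iteratedFDeriv ℝ n (gfun d a) x‖
      ≤ (1 + ‖x‖) ^ k * (n.factorial * (M ^ n * Real.exp (-a.re * ‖x‖ ^ 2)) * D ^ n) := by
        gcongr
        linarith
    _ = n.factorial * M ^ n * (1 + C') ^ n *
        ((1 + ‖x‖) ^ m * Real.exp (-a.re * ‖x‖ ^ 2)) := by
        rw [hD, hm, mul_pow, pow_add, pow_mul]
        ring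
    _ ≤ _ := by gcongr

/-- The complex Gaussian as a Schwartz function. -/
noncomputable def gauss (d : ℕ) (a : ℂ) (ha : 0 < a.re) : SchwartzMap (E d) ℂ where
  toFun := gfun d a
  smooth' := by
    have h1 : ContDiff ℝ (⊤ : ℕ∞) (fun x : E d => ‖x‖ ^ 2) := contDiff_norm_sq ℝ
    exact (contDiff_exp_line a).comp h1
  decay' k n := gfun_decay d ha k n

lemma gauss_apply (d : ℕ) (a : ℂ) (ha : 0 < a.re) (x : E d) :
    gauss d a ha x = cexp (-a * ((‖x‖ ^ 2 : ℝ) : ℂ)) := rfl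

end Pool.Agent.TH274.Wig
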