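import Mathlib
import Pool.Agent.TH274.Wig.Gauss

/-!
Cross-Wigner integrals of two complex Gaussians.
-/

set_option autoImplicit false

namespace Pool.Agent.TH274.Wig

open MeasureTheory Complex Set

/-- The integrand of the cross Wigner distribution of `exp (-P‖·‖²)` and `exp (-Q‖·‖²)`. -/
noncomputable def wint (d : ℕ) (P Q : ℂ) (x v y : E d) : ℂ :=
  cexp (-(2 * (Real.pi : ℂ) * Complex.I * ((inner ℝ y v : ℝ) : ℂ)))
    * cexp (-P * ((‖x + (1/2 : ℝ) • y‖ ^ 2 : ℝ) : ℂ))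
    * cexp (-Q * ((‖x - (1/2 : ℝ) • y‖ ^ 2 : ℝ) : ℂ))

lemma wint_eq (d : ℕ) (P Q : ℂ) (s : ℝ) (hPQ : P - Q = 2 * (Real.pi : ℂ) * I * s)
    (x v y : E d) :
    wint d P Q x v y = cexp (-(P + Q) * ((‖x‖ ^ 2 : ℝ) : ℂ)) *
      cexp (-((P + Q) / 4) * ((‖y‖ : ℝ) : ℂ) ^ 2 +
        (-(2 * (Real.pi : ℂ) * I)) * ((inner ℝ (s • x + v) y : ℝ) : ℂ)) := by
  unfold wint
  rw [← Complex.exp_add, ← Complex.exp_add, ← Complex.exp_add]
  congr 1
  have h1 : ‖x + (1/2 : ℝ) • y‖ ^ 2 = ‖x‖ ^ 2 + inner ℝ x y + ‖y‖ ^ 2 / 4 := by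
    rw [norm_add_sq_real, inner_smul_right, norm_smul]
    norm_num
    ring
  have h2 : ‖x - (1/2 : ℝ) • y‖ ^ 2 = ‖x‖ ^ 2 - inner ℝ x y + ‖y‖ ^ 2 / 4 := by
    rw [norm_sub_sq_real, inner_smul_right, norm_smul]
    norm_num
    ring
  rw [h1, h2, inner_add_left, inner_smul_left, real_inner_comm v y]
  push_cast
  have hP : P = Q + 2 * (Real.pi : ℂ) * I * s := by rw [← hPQ]; ring
  rw [hP]
  simp only [RCLike.conj_to_real]
  ring

lemma integrable_wint (d : ℕ) (P Q : ℂ) (s : ℝ) (hPQ : P - Q = 2 * (Real.pi : ℂ) * I * s)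
    (hre : 0 < (P + Q).re) (x v : E d) : Integrable (fun y => wint d P Q x v y) := by
  simp_rw [wint_eq d P Q s hPQ x v]
  refine Integrable.const_mul ?_ _
  refine GaussianFourier.integrable_cexp_neg_mul_sq_norm_add ?_ _ _
  have : ((P + Q) / 4).re = (P + Q).re / 4 := by
    simp
  rw [this]
  linarith

lemma integral_wint (d : ℕ) (P Q : ℂ) (s : ℝ) (hPQ : P - Q = 2 * (Real.pi : ℂ) * I * s)
    (hre : 0 < (P + Q).re) (x v : E d) : ∫ y, wint d P Q x v y =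
      (Real.pi / ((P + Q) / 4)) ^ ((d : ℂ) / 2) *
        (cexp (-(P + Q) * ((‖x‖ ^ 2 : ℝ) : ℂ)) *
          cexp (-(4 * (Real.pi : ℂ) ^ 2 / (P + Q)) * ((‖s • x + v‖ ^ 2 : ℝ) : ℂ))) := by
  simp_rw [wint_eq d P Q s hPQ x v]
  rw [integral_const_mul]
  have h4 : 0 < ((P + Q) / 4).re := by
    have : ((P + Q) / 4).re = (P + Q).re / 4 := by
      simp
    rw [this]
    linarith
  rw [GaussianFourier.integral_cexp_neg_mul_sq_norm_add h4]
  have hne : P + Q ≠ 0 := by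
    intro h
    rw [h] at hre
    simp at hre
  rw [finrank_euclideanSpace, Fintype.card_fin]
  have h5 : (-(2 * (Real.pi : ℂ) * I)) ^ 2 * ((‖s • x + v‖ : ℝ) : ℂ) ^ 2 / (4 * ((P + Q) / 4)) =
      -(4 * (Real.pi : ℂ) ^ 2 / (P + Q)) * ((‖s • x + v‖ ^ 2 : ℝ) : ℂ) := by
    have : (-(2 * (Real.pi : ℂ) * I)) ^ 2 = -(4 * (Real.pi : ℂ) ^ 2) := by
      rw [neg_sq, mul_pow, mul_pow, I_sq]
      ring
    rw [this]
    push_cast
    field_simp
  rw [h5]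
  ring

end Pool.Agent.TH274.Wig
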