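import Mathlib
import Pool.Agent.TH274.Wig.Gauss

/-!
Lower bound for `∫_{|x| ≤ R} exp (-a‖x‖²) dx` when `Re a · R² ≤ 2π` and `|a| ≥ 4`.
-/

set_option autoImplicit false

namespace Pool.Agent.TH274.Wig

open MeasureTheory Complex Set

/-- `∫₀^R rⁿ exp(-a r²) dr`. -/
noncomputable def JJ (a : ℂ) (R : ℝ) (n : ℕ) : ℂ :=
  ∫ r in (0 : ℝ)..R, ((r ^ n : ℝ) : ℂ) * cexp (-a * ((r ^ 2 : ℝ) : ℂ))

lemma hasDerivAt_gauss1 (a : ℂ) (r : ℝ) :
    HasDerivAt (fun r : ℝ => cexp (-a * ((r ^ 2 : ℝ) : ℂ)))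
      (cexp (-a * ((r ^ 2 : ℝ) : ℂ)) * (-a * ((2 * r : ℝ) : ℂ))) r := by
  have h1 : HasDerivAt (fun r : ℝ => ((r ^ 2 : ℝ) : ℂ)) ((2 * r : ℝ) : ℂ) r := by
    have := (hasDerivAt_pow 2 r).ofReal_comp
    simpa using this
  exact (h1.const_mul (-a)).cexp

lemma cont_gauss1 (a : ℂ) : Continuous (fun r : ℝ => cexp (-a * ((r ^ 2 : ℝ) : ℂ))) := by
  fun_prop

lemma JJ_rec (a : ℂ) (R : ℝ) (m : ℕ) :
    ((R ^ (m + 1) : ℝ) : ℂ) * cexp (-a * ((R ^ 2 : ℝ) : ℂ)) =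
      ((m + 1 : ℝ) : ℂ) * JJ a R m - 2 * a * JJ a R (m + 2) := by
  have hder : ∀ r : ℝ, HasDerivAt
      (fun r : ℝ => ((r ^ (m + 1) : ℝ) : ℂ) * cexp (-a * ((r ^ 2 : ℝ) : ℂ)))
      (((m + 1 : ℝ) : ℂ) * (((r ^ m : ℝ) : ℂ) * cexp (-a * ((r ^ 2 : ℝ) : ℂ))) -
        2 * a * (((r ^ (m + 2) : ℝ) : ℂ) * cexp (-a * ((r ^ 2 : ℝ) : ℂ)))) r := by
    intro r
    have h1 : HasDerivAt (fun r : ℝ => ((r ^ (m + 1) : ℝ) : ℂ))
        (((m + 1 : ℝ) * r ^ m : ℝ) : ℂ) r := by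
      have := (hasDerivAt_pow (m + 1) r).ofReal_comp
      simpa using this
    have h2 := h1.mul (hasDerivAt_gauss1 a r)
    refine h2.congr_deriv ?_
    push_cast
    ring
  have hint := intervalIntegral.integral_eq_sub_of_hasDerivAt (a := 0) (b := R)
    (fun r _ => hder r) (by
      apply Continuous.intervalIntegrable
      fun_prop)
  rw [intervalIntegral.integral_sub, intervalIntegral.integral_const_mul,
    intervalIntegral.integral_const_mul] at hint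
  · unfold JJ
    rw [hint]
    simp
  · apply Continuous.intervalIntegrable
    fun_prop
  · apply Continuous.intervalIntegrable
    fun_prop

lemma norm_gauss1_le {a : ℂ} (ha : 0 ≤ a.re) (r : ℝ) :
    ‖cexp (-a * ((r ^ 2 : ℝ) : ℂ))‖ ≤ 1 := by
  rw [Complex.norm_exp, Real.exp_le_one_iff]
  have : (-a * ((r ^ 2 : ℝ) : ℂ)).re = - (a.re * r ^ 2) := by
    rw [re_mul_ofReal]
    simp
  rw [this]
  have : 0 ≤ a.re * r ^ 2 := by positivity
  linarith

lemma norm_JJ_trivial {a : ℂ} (ha : 0 ≤ a.re) {R : ℝ} (hR : 0 ≤ R) (n : ℕ) :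
    ‖JJ a R n‖ ≤ R ^ (n + 1) / (n + 1) := by
  unfold JJ
  calc ‖∫ r in (0 : ℝ)..R, ((r ^ n : ℝ) : ℂ) * cexp (-a * ((r ^ 2 : ℝ) : ℂ))‖
      ≤ ∫ r in (0 : ℝ)..R, ‖((r ^ n : ℝ) : ℂ) * cexp (-a * ((r ^ 2 : ℝ) : ℂ))‖ :=
        intervalIntegral.norm_integral_le_integral_norm hR
    _ ≤ ∫ r in (0 : ℝ)..R, r ^ n := by
        apply intervalIntegral.integral_mono_on hR
        · apply Continuous.intervalIntegrable
          fun_prop
        · apply Continuous.intervalIntegrable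
          fun_prop
        · intro r hr
          rw [norm_mul, Complex.norm_real, Real.norm_of_nonneg (pow_nonneg hr.1 n)]
          calc r ^ n * ‖cexp (-a * ((r ^ 2 : ℝ) : ℂ))‖ ≤ r ^ n * 1 := by
                gcongr
                · exact pow_nonneg hr.1 n
                · exact norm_gauss1_le ha r
            _ = r ^ n := mul_one _
    _ = R ^ (n + 1) / (n + 1) := by
        rw [integral_pow]
        simp

/-- `|J_{k+1}| ≤ R^k / |a|`. -/
lemma norm_JJ_le {a : ℂ} (ha : 0 < a.re) {R : ℝ} (hR : 0 ≤ R) (k : ℕ) :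
    ‖JJ a R (k + 1)‖ ≤ R ^ k / ‖a‖ := by
  have ha0 : a ≠ 0 := by
    intro h
    rw [h] at ha
    simp at ha
  have hna : 0 < ‖a‖ := norm_pos_iff.2 ha0
  rw [le_div_iff₀ hna]
  rcases Nat.eq_zero_or_pos k with hk | hk
  · subst hk
    -- direct antiderivative
    have hder : ∀ r : ℝ, HasDerivAt (fun r : ℝ => cexp (-a * ((r ^ 2 : ℝ) : ℂ)))
        (-2 * a * (((r ^ (0 + 1) : ℝ) : ℂ) * cexp (-a * ((r ^ 2 : ℝ) : ℂ)))) r := by
      intro r
      refine (hasDerivAt_gauss1 a r).congr_deriv ?_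
      push_cast
      ring
    have hint := intervalIntegral.integral_eq_sub_of_hasDerivAt (a := 0) (b := R)
      (fun r _ => hder r) (by
        apply Continuous.intervalIntegrable
        fun_prop)
    rw [intervalIntegral.integral_const_mul] at hint
    have h2 : -2 * a * JJ a R (0 + 1) = cexp (-a * ((R ^ 2 : ℝ) : ℂ)) - 1 := by
      unfold JJ
      rw [hint]
      simp
    have h3 : ‖-2 * a * JJ a R (0 + 1)‖ ≤ 2 := by
      rw [h2]
      calc _ ≤ ‖cexp (-a * ((R ^ 2 : ℝ) : ℂ))‖ + ‖(1 : ℂ)‖ := norm_sub_le _ _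
        _ ≤ 1 + 1 := by
          gcongr
          · exact norm_gauss1_le ha.le R
          · simp
        _ = 2 := by norm_num
    rw [norm_mul, norm_mul] at h3
    simp only [norm_neg, Complex.norm_ofNat] at h3
    rw [pow_zero]
    nlinarith
  · obtain ⟨j, rfl⟩ : ∃ j, k = j + 1 := ⟨k - 1, by omega⟩
    have h := JJ_rec a R j
    have h2 : 2 * a * JJ a R (j + 2) = ((j + 1 : ℝ) : ℂ) * JJ a R j -
        ((R ^ (j + 1) : ℝ) : ℂ) * cexp (-a * ((R ^ 2 : ℝ) : ℂ)) := by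
      rw [h]; ring
    have h3 : ‖2 * a * JJ a R (j + 2)‖ ≤ 2 * R ^ (j + 1) := by
      rw [h2]
      calc _ ≤ ‖((j + 1 : ℝ) : ℂ) * JJ a R j‖ +
            ‖((R ^ (j + 1) : ℝ) : ℂ) * cexp (-a * ((R ^ 2 : ℝ) : ℂ))‖ := norm_sub_le _ _
        _ ≤ (j + 1) * (R ^ (j + 1) / (j + 1)) + R ^ (j + 1) * 1 := by
          rw [norm_mul, norm_mul, Complex.norm_real, Complex.norm_real,
            Real.norm_of_nonneg (by positivity), Real.norm_of_nonneg (by positivity)]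
          gcongr
          · exact norm_JJ_trivial ha.le hR j
          · exact norm_gauss1_le ha.le R
        _ = 2 * R ^ (j + 1) := by
          have : (j + 1 : ℝ) ≠ 0 := by positivity
          field_simp
          ring
    rw [norm_mul, norm_mul] at h3
    simp only [Complex.norm_ofNat] at h3
    have h4 : JJ a R (j + 1 + 1) = JJ a R (j + 2) := rfl
    rw [h4]
    nlinarith

/-- Lower bound: `|J_{k+3}| ≥ R^{k+2} e^{-2π} / (4|a|)`. -/
lemma norm_JJ_ge {a : ℂ} (ha : 0 < a.re) {R : ℝ} (hR : 0 < R) (haR : a.re * R ^ 2 ≤ 2 * Real.pi)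
    (k : ℕ) (hbig : 2 * (k + 2) * Real.exp (2 * Real.pi) ≤ ‖a‖ * R ^ 2) :
    R ^ (k + 2) * Real.exp (-(2 * Real.pi)) / (4 * ‖a‖) ≤ ‖JJ a R (k + 3)‖ := by
  have ha0 : a ≠ 0 := by
    intro h
    rw [h] at ha
    simp at ha
  have hna : 0 < ‖a‖ := norm_pos_iff.2 ha0
  have h := JJ_rec a R (k + 1)
  have h2 : ((R ^ (k + 2) : ℝ) : ℂ) * cexp (-a * ((R ^ 2 : ℝ) : ℂ)) =
      (((k + 1 : ℕ) + 1 : ℝ) : ℂ) * JJ a R (k + 1) - 2 * a * JJ a R (k + 3) := h
  have h3 : ‖((R ^ (k + 2) : ℝ) : ℂ) * cexp (-a * ((R ^ 2 : ℝ) : ℂ))‖ ≤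
      ((k + 1 : ℕ) + 1) * (R ^ k / ‖a‖) + 2 * ‖a‖ * ‖JJ a R (k + 3)‖ := by
    rw [h2]
    calc _ ≤ ‖(((k + 1 : ℕ) + 1 : ℝ) : ℂ) * JJ a R (k + 1)‖ + ‖2 * a * JJ a R (k + 3)‖ :=
          norm_sub_le _ _
      _ ≤ _ := by
        rw [norm_mul, norm_mul, norm_mul, Complex.norm_real, Real.norm_of_nonneg (by positivity)]
        simp only [Complex.norm_ofNat]
        gcongr
        exact norm_JJ_le ha hR.le k
  have h4 : R ^ (k + 2) * Real.exp (-(2 * Real.pi)) ≤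
      ‖((R ^ (k + 2) : ℝ) : ℂ) * cexp (-a * ((R ^ 2 : ℝ) : ℂ))‖ := by
    rw [norm_mul, Complex.norm_real, Real.norm_of_nonneg (by positivity), Complex.norm_exp]
    gcongr
    have : (-a * ((R ^ 2 : ℝ) : ℂ)).re = - (a.re * R ^ 2) := by
      rw [re_mul_ofReal]
      simp
    rw [this]
    linarith
  have h5 : ((k + 1 : ℕ) + 1 : ℝ) * (R ^ k / ‖a‖) ≤
      R ^ (k + 2) * Real.exp (-(2 * Real.pi)) / 2 := by
    have h6 : ((k + 1 : ℕ) + 1 : ℝ) = k + 2 := by push_cast; ring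
    rw [h6, ← mul_div_assoc, div_le_div_iff₀ hna (by norm_num)]
    have h7 : Real.exp (2 * Real.pi) * Real.exp (-(2 * Real.pi)) = 1 := by
      rw [← Real.exp_add]
      simp
    have h8 : (k + 2 : ℝ) * 2 ≤ ‖a‖ * R ^ 2 * Real.exp (-(2 * Real.pi)) := by
      calc (k + 2 : ℝ) * 2 = 2 * (k + 2) * (Real.exp (2 * Real.pi) *
            Real.exp (-(2 * Real.pi))) := by rw [h7]; ring
        _ = 2 * (k + 2) * Real.exp (2 * Real.pi) * Real.exp (-(2 * Real.pi)) := by ring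
        _ ≤ _ := by gcongr
    calc (k + 2 : ℝ) * R ^ k * 2 = (k + 2 : ℝ) * 2 * R ^ k := by ring
      _ ≤ ‖a‖ * R ^ 2 * Real.exp (-(2 * Real.pi)) * R ^ k := by gcongr
      _ = R ^ (k + 2) * Real.exp (-(2 * Real.pi)) * ‖a‖ := by ring
  rw [div_le_iff₀ (by positivity)]
  nlinarith

/-- The radial integral over a ball. -/
lemma integral_closedBall_gauss (d : ℕ) (hd : 1 ≤ d) (a : ℂ) {R : ℝ} (hR : 0 ≤ R) :
    ∫ x in Metric.closedBall (0 : E d) R, cexp (-a * ((‖x‖ ^ 2 : ℝ) : ℂ)) =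
      ((d * (volume : Measure (E d)).real (Metric.ball 0 1) : ℝ) : ℂ) * JJ a R (d - 1) := by
  have : Nonempty (Fin d) := ⟨⟨0, by omega⟩⟩
  have : Nontrivial (E d) := by
    infer_instance
  have h1 : ∫ x in Metric.closedBall (0 : E d) R, cexp (-a * ((‖x‖ ^ 2 : ℝ) : ℂ)) =
      ∫ x : E d, (Set.Iic R).indicator (fun r : ℝ => cexp (-a * ((r ^ 2 : ℝ) : ℂ))) ‖x‖ := by
    rw [← integral_indicator Metric.isClosed_closedBall.measurableSet]
    congr 1
    ext x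
    by_cases hx : ‖x‖ ≤ R
    · rw [Set.indicator_of_mem (by simpa using hx), Set.indicator_of_mem (by simpa using hx)]
    · rw [Set.indicator_of_notMem (by simpa using hx), Set.indicator_of_notMem (by simpa using hx)]
  rw [h1, integral_fun_norm_addHaar (volume : Measure (E d)) (fun y : ℝ => (Set.Iic R).indicator (fun r : ℝ => cexp (-a * ((r ^ 2 : ℝ) : ℂ))) y)]
  rw [finrank_euclideanSpace, Fintype.card_fin]
  have h2 : ∫ y in Ioi (0 : ℝ), y ^ (d - 1) •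
      (Set.Iic R).indicator (fun r : ℝ => cexp (-a * ((r ^ 2 : ℝ) : ℂ))) y = JJ a R (d - 1) := by
    unfold JJ
    rw [intervalIntegral.integral_of_le hR, ← Set.Ioi_inter_Iic,
      ← setIntegral_indicator measurableSet_Iic]
    congr 1
    ext y
    by_cases hy : y ∈ Iic R
    · rw [Set.indicator_of_mem hy, Set.indicator_of_mem hy]
      simp
    · rw [Set.indicator_of_notMem hy, Set.indicator_of_notMem hy]
      simp
  rw [h2]
  simp only [nsmul_eq_mul, Complex.real_smul]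
  push_cast
  ring

/-- Lower bound for the ball integral. -/
lemma norm_integral_closedBall_ge (d : ℕ) (hd : 4 ≤ d) {a : ℂ} (ha : 0 < a.re) {R : ℝ}
    (hR : 0 < R) (haR : a.re * R ^ 2 ≤ 2 * Real.pi)
    (hbig : 2 * d * Real.exp (2 * Real.pi) ≤ ‖a‖ * R ^ 2) :
    (d * (volume : Measure (E d)).real (Metric.ball 0 1)) *
      (R ^ (d - 2) * Real.exp (-(2 * Real.pi)) / (4 * ‖a‖)) ≤
      ‖∫ x in Metric.closedBall (0 : E d) R, cexp (-a * ((‖x‖ ^ 2 : ℝ) : ℂ))‖ := by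
  rw [integral_closedBall_gauss d (by omega) a hR.le, norm_mul, Complex.norm_real,
    Real.norm_of_nonneg (by positivity)]
  obtain ⟨k, rfl⟩ : ∃ k, d = k + 4 := ⟨d - 4, by omega⟩
  have h1 : k + 4 - 1 = k + 3 := by omega
  have h2 : k + 4 - 2 = k + 2 := by omega
  rw [h1, h2]
  gcongr
  refine norm_JJ_ge ha hR haR k (le_trans ?_ hbig)
  push_cast
  gcongr
  linarith

end Pool.Agent.TH274.Wig
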