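import Mathlib
import Pool.Agent.TH274.Wig.Inner
import Pool.Agent.TH274.Wig.Radial

/-!
Integrals of the Wigner distribution over `B_R × B_R` are not bounded by `C ‖u‖²` when `d ≥ 5`.
-/

set_option autoImplicit false

namespace Pool.Agent.TH274.Wig

open MeasureTheory Complex Set

lemma integral_four {α : Type*} [MeasurableSpace α] {μ : Measure α} {f1 f2 f3 f4 : α → ℂ}
    (h1 : Integrable f1 μ) (h2 : Integrable f2 μ) (h3 : Integrable f3 μ) (h4 : Integrable f4 μ)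
    (a b c : ℂ) : ∫ x, (f1 x + a * f2 x + b * f3 x + c * f4 x) ∂μ =
      ∫ x, f1 x ∂μ + a * ∫ x, f2 x ∂μ + b * ∫ x, f3 x ∂μ + c * ∫ x, f4 x ∂μ := by
  have e1 : Integrable (fun x => f1 x + a * f2 x) μ := h1.add (h2.const_mul a)
  have e2 : Integrable (fun x => f1 x + a * f2 x + b * f3 x) μ := e1.add (h3.const_mul b)
  rw [integral_add e2 (h4.const_mul c), integral_add e1 (h3.const_mul b),
    integral_add h1 (h2.const_mul a), integral_const_mul, integral_const_mul, integral_const_mul]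

/-- The Wigner distribution of a Schwartz function. -/
noncomputable def wigner {d : ℕ} (u : SchwartzMap (E d) ℂ) (p : E d × E d) : ℂ :=
  ∫ y : E d, Complex.exp (-(2 * (Real.pi : ℂ) * Complex.I * ((inner ℝ y p.2 : ℝ) : ℂ)))
      * u (p.1 + (1/2 : ℝ) • y) * starRingEnd ℂ (u (p.1 - (1/2 : ℝ) • y))

/-- The cross-Wigner distribution of two Gaussians. -/
noncomputable def GG (d : ℕ) (P Q : ℂ) (s : ℝ) (p : E d × E d) : ℂ :=
  (Real.pi / ((P + Q) / 4)) ^ ((d : ℂ) / 2) *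
        (cexp (-(P + Q) * ((‖p.1‖ ^ 2 : ℝ) : ℂ)) *
          cexp (-(4 * (Real.pi : ℂ) ^ 2 / (P + Q)) * ((‖s • p.1 + p.2‖ ^ 2 : ℝ) : ℂ)))

lemma continuous_GG (d : ℕ) (P Q : ℂ) (s : ℝ) : Continuous (GG d P Q s) := by
  unfold GG
  fun_prop

lemma integrableOn_GG (d : ℕ) (P Q : ℂ) (s : ℝ) {K : Set (E d × E d)} (hK : IsCompact K) :
    IntegrableOn (GG d P Q s) K :=
  (continuous_GG d P Q s).continuousOn.integrableOn_compact hK

lemma GG_real (d : ℕ) (P Q : ℂ) (s t : ℝ) (ht : 0 < t) (hPQ : P + Q = (t : ℂ)) (p : E d × E d) :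
    GG d P Q s p = (((Real.pi / (t / 4)) ^ ((d : ℝ) / 2) *
        (Real.exp (-t * ‖p.1‖ ^ 2) *
          Real.exp (-(4 * Real.pi ^ 2 / t) * ‖s • p.1 + p.2‖ ^ 2)) : ℝ) : ℂ) := by
  unfold GG
  rw [hPQ]
  push_cast
  rw [Complex.ofReal_cpow (by positivity)]
  push_cast
  rfl

lemma re_integral_GG_nonneg (d : ℕ) (P Q : ℂ) (s t : ℝ) (ht : 0 < t) (hPQ : P + Q = (t : ℂ))
    (K : Set (E d × E d)) : 0 ≤ (∫ p in K, GG d P Q s p).re := by
  simp_rw [GG_real d P Q s t ht hPQ]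
  rw [integral_complex_ofReal]
  rw [Complex.ofReal_re]
  apply integral_nonneg
  intro p
  positivity

lemma GG_conj (d : ℕ) (P : ℂ) (hP : 0 < P.re) (p : E d × E d) :
    GG d (starRingEnd ℂ P) (starRingEnd ℂ P) 0 p = starRingEnd ℂ (GG d P P 0 p) := by
  unfold GG
  simp only [map_mul, ← Complex.exp_conj, map_neg, map_add, map_div₀, map_pow,
    Complex.conj_ofReal, map_ofNat]
  have h1 : (Real.pi / ((P + P) / 4) : ℂ).arg ≠ Real.pi := by
    intro h
    rw [Complex.arg_eq_pi_iff] at h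
    have h2 : ((Real.pi / ((P + P) / 4) : ℂ)).re = Real.pi * ((P + P) / 4).re /
        normSq ((P + P) / 4) := by
      rw [Complex.div_re]
      simp
    have h3 : 0 < ((P + P) / 4).re := by
      simp
      linarith
    have h4 : 0 < normSq ((P + P) / 4) := by
      rw [Complex.normSq_pos]
      intro h0
      rw [h0] at h3
      simp at h3
    have h5 : 0 < ((Real.pi / ((P + P) / 4) : ℂ)).re := by
      rw [h2]
      positivity
    linarith [h.1]
  have h2 := Complex.conj_cpow (Real.pi / ((P + P) / 4) : ℂ) ((d : ℂ) / 2) h1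
  simp only [map_div₀, map_add, map_ofNat, Complex.conj_ofReal, Complex.conj_natCast] at h2
  have h3 : (starRingEnd ℂ) ((Real.pi / ((P + P) / 4) : ℂ) ^ ((d : ℂ) / 2)) =
      (Real.pi / ((starRingEnd ℂ P + starRingEnd ℂ P) / 4) : ℂ) ^ ((d : ℂ) / 2) := by
    rw [h2]
  rw [h3]

/-- Parameters. -/
noncomputable def AA (ε : ℝ) : ℂ := (ε : ℂ) - I

lemma AA_re (ε : ℝ) : (AA ε).re = ε := by simp [AA]

lemma AA_im (ε : ℝ) : (AA ε).im = -1 := by simp [AA]

/-- `P = π A`. -/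
noncomputable def PP (ε : ℝ) : ℂ := Real.pi * AA ε

lemma PP_re (ε : ℝ) : (PP ε).re = Real.pi * ε := by
  simp [PP, AA_re, AA_im]

lemma PP_im (ε : ℝ) : (PP ε).im = -Real.pi := by
  simp [PP, AA_re, AA_im]

lemma PP_re_pos {ε : ℝ} (hε : 0 < ε) : 0 < (PP ε).re := by
  rw [PP_re]
  positivity

lemma PP_conj_re_pos {ε : ℝ} (hε : 0 < ε) : 0 < (starRingEnd ℂ (PP ε)).re := by
  rw [Complex.conj_re]
  exact PP_re_pos hε

lemma PP_add_conj (ε : ℝ) : PP ε + starRingEnd ℂ (PP ε) = ((2 * Real.pi * ε : ℝ) : ℂ) := by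
  apply Complex.ext
  · simp [PP_re]
    ring
  · simp

lemma PP_conj_add (ε : ℝ) : starRingEnd ℂ (PP ε) + PP ε = ((2 * Real.pi * ε : ℝ) : ℂ) := by
  rw [add_comm]
  exact PP_add_conj ε

lemma PP_sub_conj (ε : ℝ) : PP ε - starRingEnd ℂ (PP ε) = 2 * (Real.pi : ℂ) * I * ((-1 : ℝ) : ℂ) := by
  apply Complex.ext
  · simp
  · simp [PP_im]
    ring

lemma PP_conj_sub (ε : ℝ) : starRingEnd ℂ (PP ε) - PP ε = 2 * (Real.pi : ℂ) * I * ((1 : ℝ) : ℂ) := by
  apply Complex.ext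
  · simp
  · simp [PP_im]
    ring

/-- The test function. -/
noncomputable def uu (d : ℕ) (ε : ℝ) (hε : 0 < ε) (c : ℂ) : SchwartzMap (E d) ℂ :=
  gauss d (PP ε) (PP_re_pos hε) + c • gauss d (starRingEnd ℂ (PP ε)) (PP_conj_re_pos hε)

lemma uu_apply (d : ℕ) (ε : ℝ) (hε : 0 < ε) (c : ℂ) (x : E d) :
    uu d ε hε c x = cexp (-(PP ε) * ((‖x‖ ^ 2 : ℝ) : ℂ)) +
      c * cexp (-(starRingEnd ℂ (PP ε)) * ((‖x‖ ^ 2 : ℝ) : ℂ)) := by
  simp [uu, gauss_apply]

lemma wigner_uu (d : ℕ) (ε : ℝ) (hε : 0 < ε) (c : ℂ) (p : E d × E d) :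
    wigner (uu d ε hε c) p =
      GG d (PP ε) (starRingEnd ℂ (PP ε)) (-1) p +
      starRingEnd ℂ c * GG d (PP ε) (PP ε) 0 p +
      c * GG d (starRingEnd ℂ (PP ε)) (starRingEnd ℂ (PP ε)) 0 p +
      (c * starRingEnd ℂ c) * GG d (starRingEnd ℂ (PP ε)) (PP ε) 1 p := by
  set P := PP ε with hP
  set Q := starRingEnd ℂ P with hQ
  have hPre : 0 < P.re := PP_re_pos hε
  have hQre : 0 < Q.re := PP_conj_re_pos hε
  have s1 : P - Q = 2 * (Real.pi : ℂ) * I * ((-1 : ℝ) : ℂ) := PP_sub_conj ε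
  have s2 : P - P = 2 * (Real.pi : ℂ) * I * ((0 : ℝ) : ℂ) := by simp
  have s3 : Q - Q = 2 * (Real.pi : ℂ) * I * ((0 : ℝ) : ℂ) := by simp
  have s4 : Q - P = 2 * (Real.pi : ℂ) * I * ((1 : ℝ) : ℂ) := PP_conj_sub ε
  have r1 : 0 < (P + Q).re := by rw [add_re]; linarith
  have r2 : 0 < (P + P).re := by rw [add_re]; linarith
  have r3 : 0 < (Q + Q).re := by rw [add_re]; linarith
  have r4 : 0 < (Q + P).re := by rw [add_re]; linarith
  have hpt : ∀ y : E d, Complex.exp (-(2 * (Real.pi : ℂ) * Complex.I * ((inner ℝ y p.2 : ℝ) : ℂ)))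
      * uu d ε hε c (p.1 + (1/2 : ℝ) • y) * starRingEnd ℂ (uu d ε hε c (p.1 - (1/2 : ℝ) • y)) =
      wint d P Q p.1 p.2 y + starRingEnd ℂ c * wint d P P p.1 p.2 y + c * wint d Q Q p.1 p.2 y +
        (c * starRingEnd ℂ c) * wint d Q P p.1 p.2 y := by
    intro y
    rw [uu_apply, uu_apply]
    unfold wint
    simp only [map_add, map_mul, ← Complex.exp_conj, map_neg, Complex.conj_ofReal,
      Complex.conj_conj]
    rw [← hP, ← hQ]
    ring
  unfold wigner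
  simp_rw [hpt]
  have i1 := integrable_wint d P Q (-1) s1 r1 p.1 p.2
  have i2 := integrable_wint d P P 0 s2 r2 p.1 p.2
  have i3 := integrable_wint d Q Q 0 s3 r3 p.1 p.2
  have i4 := integrable_wint d Q P 1 s4 r4 p.1 p.2
  rw [integral_four i1 i2 i3 i4,
    integral_wint d P Q (-1) s1 r1, integral_wint d P P 0 s2 r2, integral_wint d Q Q 0 s3 r3,
    integral_wint d Q P 1 s4 r4]
  rfl

/-- The integral over a compact set. -/
lemma re_integral_wigner_ge (d : ℕ) (ε : ℝ) (hε : 0 < ε) (c : ℂ) {K : Set (E d × E d)}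
    (hK : IsCompact K) :
    2 * (starRingEnd ℂ c * ∫ p in K, GG d (PP ε) (PP ε) 0 p).re ≤
      (∫ p in K, wigner (uu d ε hε c) p).re := by
  set P := PP ε with hP
  set Q := starRingEnd ℂ P with hQ
  have hPre : 0 < P.re := PP_re_pos hε
  simp_rw [wigner_uu]
  rw [← hP, ← hQ]
  have i1 := integrableOn_GG d P Q (-1) hK
  have i2 := integrableOn_GG d P P 0 hK
  have i3 := integrableOn_GG d Q Q 0 hK
  have i4 := integrableOn_GG d Q P 1 hK
  rw [integral_four i1 i2 i3 i4]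
  have ht : 0 < 2 * Real.pi * ε := by positivity
  have h1 := re_integral_GG_nonneg d P Q (-1) _ ht (PP_add_conj ε) K
  have h4 := re_integral_GG_nonneg d Q P 1 _ ht (PP_conj_add ε) K
  have h3 : ∫ p in K, GG d Q Q 0 p = starRingEnd ℂ (∫ p in K, GG d P P 0 p) := by
    rw [← integral_conj]
    congr 1
    ext p
    exact GG_conj d P hPre p
  rw [h3]
  have h5 : (c * starRingEnd ℂ (∫ p in K, GG d P P 0 p)) =
      starRingEnd ℂ (starRingEnd ℂ c * ∫ p in K, GG d P P 0 p) := by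
    rw [map_mul, Complex.conj_conj]
  rw [h5]
  have h6 : (c * starRingEnd ℂ c * ∫ p in K, GG d Q P 1 p).re =
      normSq c * (∫ p in K, GG d Q P 1 p).re := by
    rw [Complex.mul_conj, Complex.re_ofReal_mul]
  simp only [add_re, Complex.conj_re]
  rw [h6]
  have h7 : 0 ≤ normSq c * (∫ p in K, GG d Q P 1 p).re := mul_nonneg (normSq_nonneg _) h4
  linarith

end Pool.Agent.TH274.Wig
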