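import Mathlib
import Pool.Agent.TH274.Wig.Main

/-!
Integrals of the Wigner distribution over `B_R × B_R` are not bounded by `C ‖u‖²` when `d ≥ 5`.
-/

set_option autoImplicit false

namespace Pool.Agent.TH274.Wig

open MeasureTheory Complex Set

/-- The phase space set `B_R × B_R`. -/
def KK (d : ℕ) (R : ℝ) : Set (E d × E d) := Metric.closedBall 0 R ×ˢ Metric.closedBall 0 R

lemma isCompact_KK (d : ℕ) (R : ℝ) : IsCompact (KK d R) :=
  (isCompact_closedBall _ _).prod (isCompact_closedBall _ _)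

lemma convex_KK (d : ℕ) (R : ℝ) : Convex ℝ (KK d R) :=
  (convex_closedBall _ _).prod (convex_closedBall _ _)

lemma integral_GG_PP (d : ℕ) (P : ℂ) (R : ℝ) :
    ∫ p in KK d R, GG d P P 0 p = (Real.pi / ((P + P) / 4)) ^ ((d : ℂ) / 2) *
      ((∫ x in Metric.closedBall (0 : E d) R, cexp (-(P + P) * ((‖x‖ ^ 2 : ℝ) : ℂ))) *
       (∫ x in Metric.closedBall (0 : E d) R,
          cexp (-(4 * (Real.pi : ℂ) ^ 2 / (P + P)) * ((‖x‖ ^ 2 : ℝ) : ℂ)))) := by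
  unfold GG KK
  simp only [zero_smul, zero_add]
  rw [integral_const_mul]
  congr 1
  exact setIntegral_prod_mul (fun x : E d => cexp (-(P + P) * ((‖x‖ ^ 2 : ℝ) : ℂ)))
    (fun x : E d => cexp (-(4 * (Real.pi : ℂ) ^ 2 / (P + P)) * ((‖x‖ ^ 2 : ℝ) : ℂ))) _ _

/-- The constant. -/
noncomputable def c0 (d : ℕ) : ℝ :=
  (d * (volume : Measure (E d)).real (Metric.ball 0 1)) ^ 2 * Real.exp (-(2 * Real.pi)) ^ 2 /
    (64 * Real.pi ^ 2)

lemma volume_ball_pos (d : ℕ) : 0 < (volume : Measure (E d)).real (Metric.ball 0 1) := by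
  rw [Measure.real, ENNReal.toReal_pos_iff]
  exact ⟨Metric.measure_ball_pos _ _ one_pos, measure_ball_lt_top⟩

lemma c0_pos (d : ℕ) (hd : 1 ≤ d) : 0 < c0 d := by
  unfold c0
  have h1 := volume_ball_pos d
  have h2 : (0 : ℝ) < d := by exact_mod_cast hd
  positivity

lemma norm_Z_ge (d : ℕ) (hd : 4 ≤ d) {R : ℝ} (hR1 : 1 ≤ R)
    (hR : 2 * d * Real.exp (2 * Real.pi) ≤ 4 * R ^ 2) :
    c0 d * (R ^ (d - 2)) ^ 2 ≤
      ‖∫ p in KK d R, GG d (PP ((R ^ 2)⁻¹)) (PP ((R ^ 2)⁻¹)) 0 p‖ := by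
  have hR0 : 0 < R := by linarith
  set ε : ℝ := (R ^ 2)⁻¹ with hε
  have hε0 : 0 < ε := by positivity
  have hεR : ε * R ^ 2 = 1 := by
    rw [hε]
    field_simp
  have hε1 : ε ≤ 1 := by
    rw [hε]
    apply inv_le_one_of_one_le₀
    exact one_le_pow₀ hR1
  set a : ℂ := PP ε + PP ε with ha
  have hare : a.re = 2 * Real.pi * ε := by
    rw [ha, add_re, PP_re]; ring
  have haim : a.im = -(2 * Real.pi) := by
    rw [ha, add_im, PP_im]; ring
  have hapos : 0 < a.re := by rw [hare]; positivity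
  have ha0 : a ≠ 0 := by
    intro h
    rw [h] at hapos
    simp at hapos
  have hna : 0 < ‖a‖ := norm_pos_iff.2 ha0
  have hnsq : ‖a‖ ^ 2 = 4 * Real.pi ^ 2 * (1 + ε ^ 2) := by
    rw [← Complex.normSq_eq_norm_sq, Complex.normSq_apply, hare, haim]
    ring
  have hpi3 := Real.pi_gt_three
  have hna1 : 4 ≤ ‖a‖ := by
    have : (4 : ℝ) ^ 2 ≤ ‖a‖ ^ 2 := by
      rw [hnsq]
      nlinarith [sq_nonneg ε]
    exact le_of_sq_le_sq this (norm_nonneg _)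
  have hna2 : ‖a‖ ^ 2 ≤ 8 * Real.pi ^ 2 := by
    rw [hnsq]
    have : ε ^ 2 ≤ 1 := by nlinarith
    nlinarith [Real.pi_pos]
  set b : ℂ := 4 * (Real.pi : ℂ) ^ 2 / a with hb
  have hbn : ‖b‖ = 4 * Real.pi ^ 2 / ‖a‖ := by
    rw [hb, norm_div, norm_mul, norm_pow, Complex.norm_real, Real.norm_of_nonneg Real.pi_pos.le]
    simp
  have hbre : b.re = 4 * Real.pi ^ 2 * a.re / ‖a‖ ^ 2 := by
    rw [hb, Complex.div_re, ← Complex.normSq_eq_norm_sq]
    have h1 : ((4 : ℂ) * (Real.pi : ℂ) ^ 2).re = 4 * Real.pi ^ 2 := by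
      have : ((4 : ℂ) * (Real.pi : ℂ) ^ 2) = ((4 * Real.pi ^ 2 : ℝ) : ℂ) := by push_cast; rfl
      rw [this, Complex.ofReal_re]
    have h2 : ((4 : ℂ) * (Real.pi : ℂ) ^ 2).im = 0 := by
      have : ((4 : ℂ) * (Real.pi : ℂ) ^ 2) = ((4 * Real.pi ^ 2 : ℝ) : ℂ) := by push_cast; rfl
      rw [this, Complex.ofReal_im]
    rw [h1, h2]
    ring
  have hbpos : 0 < b.re := by
    rw [hbre]
    positivity
  have hbre2 : b.re * R ^ 2 ≤ 2 * Real.pi := by
    rw [hbre, hare, div_mul_eq_mul_div, div_le_iff₀ (by positivity), hnsq]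
    have : 4 * Real.pi ^ 2 * (2 * Real.pi * ε) * R ^ 2 = 2 * Real.pi * (4 * Real.pi ^ 2) := by
      calc _ = 4 * Real.pi ^ 2 * (2 * Real.pi) * (ε * R ^ 2) := by ring
        _ = _ := by rw [hεR]; ring
    rw [this]
    have h3 : 0 ≤ 2 * Real.pi * (4 * Real.pi ^ 2) * ε ^ 2 := by positivity
    nlinarith
  have hare2 : a.re * R ^ 2 ≤ 2 * Real.pi := by
    rw [hare, mul_assoc, hεR, mul_one]
  have hbn1 : 4 ≤ ‖b‖ := by
    rw [hbn, le_div_iff₀ hna]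
    have h9 : 8 ≤ Real.pi ^ 2 := by nlinarith
    have : (4 * ‖a‖) ^ 2 ≤ (4 * Real.pi ^ 2) ^ 2 := by
      calc (4 * ‖a‖) ^ 2 = 16 * ‖a‖ ^ 2 := by ring
        _ ≤ 16 * (8 * Real.pi ^ 2) := by gcongr
        _ ≤ 16 * (Real.pi ^ 2 * Real.pi ^ 2) := by gcongr
        _ = (4 * Real.pi ^ 2) ^ 2 := by ring
    exact le_of_sq_le_sq this (by positivity)
  have hX := norm_integral_closedBall_ge d hd hapos hR0 hare2 (by
    refine hR.trans ?_
    gcongr)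
  have hV := norm_integral_closedBall_ge d hd hbpos hR0 hbre2 (by
    refine hR.trans ?_
    gcongr)
  rw [integral_GG_PP, norm_mul, norm_mul]
  have hpre : 1 ≤ ‖(Real.pi / ((PP ε + PP ε) / 4) : ℂ) ^ ((d : ℂ) / 2)‖ := by
    have h1 : ((d : ℂ) / 2) = (((d : ℝ) / 2 : ℝ) : ℂ) := by push_cast; rfl
    rw [h1, Complex.norm_cpow_real]
    apply Real.one_le_rpow
    · rw [norm_div, norm_div, Complex.norm_real, Real.norm_of_nonneg Real.pi_pos.le, ← ha]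
      simp only [Complex.norm_ofNat]
      rw [le_div_iff₀ (by positivity)]
      have : ‖a‖ ^ 2 ≤ (4 * Real.pi) ^ 2 := by nlinarith [Real.pi_pos]
      have := le_of_sq_le_sq this (by positivity)
      linarith
    · positivity
  rw [← ha]
  rw [← ha] at hpre
  set D : ℝ := (d * (volume : Measure (E d)).real (Metric.ball 0 1)) with hD
  have hD0 : 0 ≤ D := by positivity
  set ρ : ℝ := Real.exp (-(2 * Real.pi)) with hρ
  have hρ0 : 0 < ρ := Real.exp_pos _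
  calc c0 d * (R ^ (d - 2)) ^ 2
      = (D * (R ^ (d - 2) * ρ / (4 * ‖a‖))) * (D * (R ^ (d - 2) * ρ / (4 * ‖b‖))) := by
        rw [hbn]
        unfold c0
        rw [← hD, ← hρ]
        field_simp
        ring
    _ ≤ ‖∫ x in Metric.closedBall (0 : E d) R, cexp (-a * ((‖x‖ ^ 2 : ℝ) : ℂ))‖ *
        ‖∫ x in Metric.closedBall (0 : E d) R, cexp (-b * ((‖x‖ ^ 2 : ℝ) : ℂ))‖ := by
        gcongr
    _ = 1 * (‖∫ x in Metric.closedBall (0 : E d) R, cexp (-a * ((‖x‖ ^ 2 : ℝ) : ℂ))‖ *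
        ‖∫ x in Metric.closedBall (0 : E d) R, cexp (-b * ((‖x‖ ^ 2 : ℝ) : ℂ))‖) := by ring
    _ ≤ _ := by gcongr

lemma integral_norm_uu_le (d : ℕ) {R : ℝ} (hR1 : 1 ≤ R) (hε : 0 < (R ^ 2)⁻¹) {c : ℂ}
    (hc : ‖c‖ ≤ 1) :
    ∫ x : E d, ‖uu d ((R ^ 2)⁻¹) hε c x‖ ^ 2 ≤ 4 * R ^ d := by
  set ε : ℝ := (R ^ 2)⁻¹ with hεdef
  have hR0 : 0 < R := by linarith
  have h1 : ∀ x : E d, ‖uu d ε hε c x‖ ^ 2 ≤
      4 * Real.exp (-(2 * Real.pi * ε) * ‖x‖ ^ 2) := by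
    intro x
    have hf : ‖cexp (-(PP ε) * ((‖x‖ ^ 2 : ℝ) : ℂ))‖ = Real.exp (-(Real.pi * ε) * ‖x‖ ^ 2) := by
      rw [Complex.norm_exp, re_mul_ofReal, neg_re, PP_re]
    have hg : ‖cexp (-(starRingEnd ℂ (PP ε)) * ((‖x‖ ^ 2 : ℝ) : ℂ))‖ =
        Real.exp (-(Real.pi * ε) * ‖x‖ ^ 2) := by
      rw [Complex.norm_exp, re_mul_ofReal, neg_re, conj_re, PP_re]
    have h2 : ‖uu d ε hε c x‖ ≤ 2 * Real.exp (-(Real.pi * ε) * ‖x‖ ^ 2) := by
      rw [uu_apply]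
      calc _ ≤ ‖cexp (-(PP ε) * ((‖x‖ ^ 2 : ℝ) : ℂ))‖ +
            ‖c * cexp (-(starRingEnd ℂ (PP ε)) * ((‖x‖ ^ 2 : ℝ) : ℂ))‖ := norm_add_le _ _
        _ ≤ Real.exp (-(Real.pi * ε) * ‖x‖ ^ 2) + 1 * Real.exp (-(Real.pi * ε) * ‖x‖ ^ 2) := by
          rw [norm_mul, hf, hg]
          gcongr
        _ = _ := by ring
    calc ‖uu d ε hε c x‖ ^ 2 ≤ (2 * Real.exp (-(Real.pi * ε) * ‖x‖ ^ 2)) ^ 2 := by gcongr
      _ = 4 * (Real.exp (-(Real.pi * ε) * ‖x‖ ^ 2) * Real.exp (-(Real.pi * ε) * ‖x‖ ^ 2)) := by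
        ring
      _ = _ := by
        rw [← Real.exp_add]
        ring_nf
  have hb : 0 < 2 * Real.pi * ε := by positivity
  have hint : Integrable (fun x : E d => Real.exp (-(2 * Real.pi * ε) * ‖x‖ ^ 2)) := by
    have h3 := GaussianFourier.integrable_cexp_neg_mul_sq_norm_add (V := E d)
      (b := ((2 * Real.pi * ε : ℝ) : ℂ)) (by rw [Complex.ofReal_re]; exact hb) 0 0
    have h4 := h3.re
    refine h4.congr (Filter.Eventually.of_forall fun x => ?_)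
    simp only [inner_zero_left]
    have : -((2 * Real.pi * ε : ℝ) : ℂ) * ((‖x‖ : ℝ) : ℂ) ^ 2 + 0 * ((0 : ℝ) : ℂ) =
        ((-(2 * Real.pi * ε) * ‖x‖ ^ 2 : ℝ) : ℂ) := by
      push_cast
      ring
    rw [this]
    exact Complex.exp_ofReal_re _
  calc ∫ x : E d, ‖uu d ε hε c x‖ ^ 2
      ≤ ∫ x : E d, 4 * Real.exp (-(2 * Real.pi * ε) * ‖x‖ ^ 2) := by
        apply integral_mono_of_nonneg
        · exact Filter.Eventually.of_forall fun x => by positivity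
        · exact hint.const_mul 4
        · exact Filter.Eventually.of_forall h1
    _ = 4 * (Real.pi / (2 * Real.pi * ε)) ^ ((d : ℝ) / 2) := by
        rw [integral_const_mul, GaussianFourier.integral_rexp_neg_mul_sq_norm hb,
          finrank_euclideanSpace, Fintype.card_fin]
    _ ≤ 4 * (R ^ 2) ^ ((d : ℝ) / 2) := by
        gcongr
        have hpi := Real.pi_pos
        rw [hεdef]
        have : Real.pi / (2 * Real.pi * (R ^ 2)⁻¹) = R ^ 2 / 2 := by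
          field_simp
        rw [this]
        have : 0 ≤ R ^ 2 := by positivity
        linarith
    _ = 4 * R ^ d := by
        congr 1
        rw [← Real.rpow_natCast, ← Real.rpow_mul hR0.le, ← Real.rpow_natCast]
        congr 1
        push_cast
        ring

/-- Main theorem: for `d ≥ 5` there are `c > 0` and `R₀` such that for every `R ≥ R₀` some
Schwartz function `u ≠ 0` satisfies `∬_{B_R × B_R} W(u,u) ≥ c R^{d-4} ‖u‖²`. -/
theorem main (d : ℕ) (hd : 5 ≤ d) : ∃ c : ℝ, 0 < c ∧ ∃ R₀ : ℝ, ∀ R : ℝ, R₀ ≤ R →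
    ∃ u : SchwartzMap (E d) ℂ, 0 < ∫ x : E d, ‖u x‖ ^ 2 ∧
      c * R ^ (d - 4) * ∫ x : E d, ‖u x‖ ^ 2 ≤ (∫ p in KK d R, wigner u p).re := by
  refine ⟨c0 d / 2, half_pos (c0_pos d (by omega)), max 1 (d * Real.exp (2 * Real.pi)),
    fun R hR => ?_⟩
  have hR1 : 1 ≤ R := (le_max_left _ _).trans hR
  have hR0 : 0 < R := by linarith
  have hR2 : d * Real.exp (2 * Real.pi) ≤ R := (le_max_right _ _).trans hR
  have hR3 : 2 * d * Real.exp (2 * Real.pi) ≤ 4 * R ^ 2 := by nlinarith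
  have hε : 0 < (R ^ 2)⁻¹ := by positivity
  have hZ := norm_Z_ge d (by omega) hR1 hR3
  set Z : ℂ := ∫ p in KK d R, GG d (PP ((R ^ 2)⁻¹)) (PP ((R ^ 2)⁻¹)) 0 p with hZdef
  have hc0 := c0_pos d (by omega)
  have hZpos : 0 < ‖Z‖ := lt_of_lt_of_le (by positivity) hZ
  set c : ℂ := Z / ‖Z‖ with hc
  have hcn : ‖c‖ ≤ 1 := by
    rw [hc, norm_div, Complex.norm_real, norm_norm, div_self hZpos.ne']
  have hW := re_integral_wigner_ge d ((R ^ 2)⁻¹) hε c (isCompact_KK d R)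
  have hcZ : (starRingEnd ℂ c * Z).re = ‖Z‖ := by
    have h1 : starRingEnd ℂ c * Z = ((‖Z‖ : ℝ) : ℂ) := by
      rw [hc, map_div₀, Complex.conj_ofReal, div_mul_eq_mul_div, mul_comm (starRingEnd ℂ Z) Z,
        Complex.mul_conj, Complex.normSq_eq_norm_sq]
      have : ((‖Z‖ : ℝ) : ℂ) ≠ 0 := by exact_mod_cast hZpos.ne'
      push_cast
      field_simp
    rw [h1, Complex.ofReal_re]
  rw [← hZdef, hcZ] at hW
  have hL := integral_norm_uu_le d hR1 hε hcn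
  have hgt : 0 < (∫ p in KK d R, wigner (uu d ((R ^ 2)⁻¹) hε c) p).re := by
    refine lt_of_lt_of_le ?_ hW
    positivity
  refine ⟨uu d ((R ^ 2)⁻¹) hε c, ?_, ?_⟩
  · -- positivity of the norm
    have hex : ∃ x, uu d ((R ^ 2)⁻¹) hε c x ≠ 0 := by
      by_contra hcon
      push Not at hcon
      have hzero : ∀ p, wigner (uu d ((R ^ 2)⁻¹) hε c) p = 0 := by
        intro p
        unfold wigner
        simp [hcon]
      simp_rw [hzero] at hgt
      simp at hgt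
    obtain ⟨x, hx⟩ := hex
    have hcont : Continuous (fun x => ‖uu d ((R ^ 2)⁻¹) hε c x‖ ^ 2) :=
      (uu d ((R ^ 2)⁻¹) hε c).continuous.norm.pow 2
    have hmem : Integrable (fun x => ‖uu d ((R ^ 2)⁻¹) hε c x‖ ^ 2) := by
      have := (uu d ((R ^ 2)⁻¹) hε c).memLp 2 volume
      exact (memLp_two_iff_integrable_sq_norm this.1).1 this
    rw [integral_pos_iff_support_of_nonneg (fun x => by positivity) hmem]
    exact (hcont.isOpen_support).measure_pos volume ⟨x, by simpa using hx⟩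
  · have h1 : c0 d / 2 * R ^ (d - 4) * ∫ x : E d, ‖uu d ((R ^ 2)⁻¹) hε c x‖ ^ 2 ≤
        c0 d / 2 * R ^ (d - 4) * (4 * R ^ d) := by gcongr
    have h2 : c0 d / 2 * R ^ (d - 4) * (4 * R ^ d) = 2 * (c0 d * (R ^ (d - 2)) ^ 2) := by
      obtain ⟨k, rfl⟩ : ∃ k, d = k + 4 := ⟨d - 4, by omega⟩
      have e1 : k + 4 - 4 = k := by omega
      have e2 : k + 4 - 2 = k + 2 := by omega
      rw [e1, e2]
      ring
    linarith

end Pool.Agent.TH274.Wig
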